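import Pool.Agent.Y667.BKP.Main
import Pool.Agent.Q274.XF.H0
import Pool.Agent.TH841.NF.Ker

/-!
# The Bloch–Kato Selmer group of `V_p E` twisted by an Artin representation

`E` is an elliptic curve over `ℚ`, `F` a finite Galois extension of `ℚ`, `j` an embedding of `F` in the
algebraic closure, and `r` a representation of `Gal(F/ℚ)` by integral matrices. If `E(F)` is finite and
the `p`-primary part of `Ш(E/F)` has bounded exponent, then `H⁰(ℚ, V_p E ⊗ r)` and
`H¹_f(ℚ, V_p E ⊗ r)` are zero.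
-/

set_option autoImplicit false
set_option linter.unusedSectionVars false

open scoped Classical

namespace Q155.BK

open WeierstrassCurve NumberField IsDedekindDomain
open Pool.Agent.TH841.SH.D (Gal act Pt)
open Pool.Agent.Y667.BKP (PSeq IsV H1f Coch2 IsCocV IsCobV LocKum IsSelV)
open Pool.Agent.TH841.NF (Sc tm sc_any sc_any' Fx cF cQ cQ_fx cF_cQ tr_act any_surj tm_inj tm_act
  act_tm tm_tm tm_id e_cF)

/-- the algebraic closure of `ℚ` -/
abbrev Qb : Type := AlgebraicClosure ℚ

section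
variable {F : Type} [Field F] [NumberField F]

/-- The restriction of `σ` to `F`, for the embedding `j` of `F`. -/
noncomputable def res (j : F →+* Qb) (σ : Gal ℚ) : F ≃ₐ[ℚ] F :=
  if h : ∃ g : F ≃ₐ[ℚ] F, ∀ x, j (g x) = σ (j x) then h.choose else 1

theorem res_of (j : F →+* Qb) {σ : Gal ℚ} {g : F ≃ₐ[ℚ] F} (hg : ∀ x, j (g x) = σ (j x)) :
    res j σ = g := by
  have h : ∃ g : F ≃ₐ[ℚ] F, ∀ x, j (g x) = σ (j x) := ⟨g, hg⟩
  unfold res
  rw [dif_pos h]
  refine AlgEquiv.ext fun x => j.injective ?_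
  rw [h.choose_spec, hg]

theorem res_fix (j : F →+* Qb) {σ : Gal ℚ} (hσ : ∀ x, σ (j x) = j x) : res j σ = 1 :=
  res_of j fun x => (hσ x).symm

theorem res_spec [IsGalois ℚ F] (j : F →+* Qb) (σ : Gal ℚ) (x : F) : j (res j σ x) = σ (j x) := by
  have h : ∃ g : F ≃ₐ[ℚ] F, ∀ x, j (g x) = σ (j x) := by
    letI : Algebra F Qb := j.toAlgebra
    haveI : IsScalarTower ℚ F Qb := IsScalarTower.of_algebraMap_eq fun x =>
      DFunLike.congr_fun (Subsingleton.elim (algebraMap ℚ Qb) (j.comp (algebraMap ℚ F))) x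
    exact ⟨AlgEquiv.restrictNormal σ F, fun x => AlgEquiv.restrictNormal_commutes σ F x⟩
  obtain ⟨g, hg⟩ := h
  rw [res_of j hg, hg]

theorem res_mul [IsGalois ℚ F] (j : F →+* Qb) (σ τ : Gal ℚ) :
    res j (σ * τ) = res j σ * res j τ := by
  refine res_of j fun x => ?_
  rw [AlgEquiv.mul_apply, res_spec, res_spec, AlgEquiv.mul_apply]

theorem fix_of_res [IsGalois ℚ F] (j : F →+* Qb) {σ : Gal ℚ} (h : res j σ = 1) (x : F) :
    σ (j x) = j x := by
  rw [← res_spec, h]
  rfl

/-- an extension of the embedding -/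
theorem exists_e (j : F →+* Qb) : ∃ e : AlgebraicClosure F ≃+* Qb,
    ∀ x : F, e (algebraMap F (AlgebraicClosure F) x) = j x := by
  letI : Algebra F Qb := j.toAlgebra
  haveI : IsScalarTower ℚ F Qb := IsScalarTower.of_algebraMap_eq fun x =>
    DFunLike.congr_fun (Subsingleton.elim (algebraMap ℚ Qb) (j.comp (algebraMap ℚ F))) x
  haveI : Algebra.IsAlgebraic F Qb := Algebra.IsAlgebraic.tower_top (K := ℚ) F
  haveI : IsAlgClosure F Qb := ⟨inferInstance, inferInstance⟩
  exact ⟨(IsAlgClosure.equiv F (AlgebraicClosure F) Qb).toRingEquiv, fun x =>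
    (IsAlgClosure.equiv F (AlgebraicClosure F) Qb).commutes x⟩

/-! ## the comparison of the absolute Galois groups -/

section comp
variable (e : AlgebraicClosure F ≃+* Qb)

/-- the homomorphism of the Galois groups -/
noncomputable def cH : Gal F →* Gal ℚ where
  toFun := cQ e
  map_one' := AlgEquiv.ext fun x => e.apply_symm_apply x
  map_mul' σ τ := by
    refine AlgEquiv.ext fun x => ?_
    change e (σ (τ (e.symm x))) = e (σ (e.symm (e (τ (e.symm x)))))
    rw [e.symm_apply_apply]

theorem cQ_mul (σ τ : Gal F) : cQ e (σ * τ) = cQ e σ * cQ e τ := map_mul (cH e) σ τ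

theorem cQ_cF {g : Gal ℚ} (h : Fx e g) : cQ e (cF e g) = g := by
  refine AlgEquiv.ext fun x => ?_
  change e (cF e g (e.symm x)) = g x
  rw [e_cF e h, e.apply_symm_apply]

theorem cH_cont : Continuous (cH e) := by
  apply continuous_of_continuousAt_one
  unfold ContinuousAt
  rw [map_one]
  intro s hs
  obtain ⟨E, hE, hEs⟩ := (krullTopology_mem_nhds_one_iff ℚ Qb s).1 hs
  let b := Module.finBasis ℚ E
  have hst : ∀ y : AlgebraicClosure F, {σ : Gal F | σ y = y} ∈ nhds (1 : Gal F) := by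
    intro y
    exact (stabilizer_isOpen_of_isIntegral (K := F) y).mem_nhds
      (MulAction.stabilizer (Gal F) y).one_mem
  have h1 : (⋂ i, {σ : Gal F | σ (e.symm (b i : Qb)) = e.symm (b i : Qb)}) ∈
      nhds (1 : Gal F) := Filter.iInter_mem.2 fun i => hst _
  rw [Filter.mem_map]
  refine Filter.mem_of_superset h1 fun σ hσ => ?_
  apply hEs
  show cQ e σ ∈ E.fixingSubgroup
  rw [IntermediateField.mem_fixingSubgroup_iff]
  intro x hx
  have h3 : ((∑ i, b.repr ⟨x, hx⟩ i • b i : E) : Qb) = x :=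
    congrArg (Subtype.val) (b.sum_repr ⟨x, hx⟩)
  rw [← h3]
  have h4 : ∀ i, cQ e σ (b i : Qb) = b i := by
    intro i
    change e (σ (e.symm (b i : Qb))) = b i
    have h5 : σ (e.symm (b i : Qb)) = e.symm (b i : Qb) := Set.mem_iInter.1 hσ i
    rw [h5, e.apply_symm_apply]
  rw [IntermediateField.coe_sum, map_sum]
  refine Finset.sum_congr rfl fun i _ => ?_
  rw [IntermediateField.coe_smul]
  exact (map_rat_smul (cQ e σ) _ _).trans (congrArg _ (h4 i))

end comp

end

/-! ## the twisted representation -/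

section tw
variable {F : Type} [Field F] [NumberField F] {n : ℕ} (p : ℕ) (W : WeierstrassCurve ℚ)
  (j : F →+* Qb) (r : (F ≃ₐ[ℚ] F) →* Matrix (Fin n) (Fin n) ℤ)

/-- the action of `σ` on `V_p W ⊗ ℤ^n` -/
noncomputable def ta (σ : Gal ℚ) (x : Fin n → PSeq W) : Fin n → PSeq W := fun i m =>
  ∑ k, r (res j σ) i k • act W σ.toAlgHom (x k m)

/-- a continuous cocycle -/
def IsTC (c : Gal ℚ → Fin n → PSeq W) : Prop :=
  (∀ i m, IsLocallyConstant fun σ => c σ i m) ∧ (∀ σ i, IsV p W (c σ i)) ∧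
    ∀ (σ τ : Gal ℚ) (i : Fin n) (m : ℕ), c (σ * τ) i m = c σ i m + ta W j r σ (c τ) i m

/-- a coboundary -/
def IsTB (c : Gal ℚ → Fin n → PSeq W) : Prop :=
  ∃ x : Fin n → PSeq W, (∀ i, IsV p W (x i)) ∧
    ∀ (σ : Gal ℚ) (i : Fin n) (m : ℕ), c σ i m = ta W j r σ x i m - x i m

variable (F) in
/-- the local conditions -/
def IsTL (c : Gal ℚ → Fin n → PSeq W) : Prop :=
  ∀ (v : HeightOneSpectrum (𝓞 F)) (i : Fin n),
    LocKum p W (v.adicCompletion F) fun σ => c σ i

theorem sc_base : Sc (algebraMap ℚ F) 1 W (W.baseChange F) := by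
  refine ⟨one_ne_zero, ?_, ?_, ?_, ?_, ?_⟩ <;> simp [WeierstrassCurve.baseChange]

variable {p} {W} {j} {r}

/-- the elements of the absolute Galois group of `F` act without the twist -/
theorem ta_fix {σ : Gal ℚ} (hσ : ∀ x, σ (j x) = j x) (x : Fin n → PSeq W) (i : Fin n) (m : ℕ) :
    ta W j r σ x i m = act W σ.toAlgHom (x i m) := by
  unfold ta
  rw [res_fix j hσ, map_one, Finset.sum_eq_single i]
  · rw [Matrix.one_apply_eq, one_smul]
  · intro k _ hk
    rw [Matrix.one_apply_ne (Ne.symm hk), zero_smul]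
  · intro h
    exact absurd (Finset.mem_univ i) h

theorem act_mul' (σ τ : Gal ℚ) (P : Pt W Qb) :
    act W (σ * τ).toAlgHom P = act W σ.toAlgHom (act W τ.toAlgHom P) := by
  rcases P with _ | ⟨x, y, h⟩
  · rfl
  · rfl

theorem ta_mul [IsGalois ℚ F] (σ τ : Gal ℚ) (x : Fin n → PSeq W) :
    ta W j r (σ * τ) x = ta W j r σ (ta W j r τ x) := by
  funext i m
  unfold ta
  rw [res_mul, map_mul]
  simp only [act_mul', map_sum, map_zsmul, Finset.smul_sum, Matrix.mul_apply, Finset.sum_smul,
    mul_smul]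
  rw [Finset.sum_comm]

theorem ta_sub (σ : Gal ℚ) (x y : Fin n → PSeq W) (i : Fin n) (m : ℕ) :
    ta W j r σ (fun i m => x i m - y i m) i m = ta W j r σ x i m - ta W j r σ y i m := by
  unfold ta
  rw [← Finset.sum_sub_distrib]
  refine Finset.sum_congr rfl fun k _ => ?_
  rw [map_sub, smul_sub]

section tr
variable (e : AlgebraicClosure F ≃+* Qb)

/-- the transport of points to the algebraic closure of `F` -/
noncomputable def bk : Pt W Qb →+ Pt (W.baseChange F) (AlgebraicClosure F) :=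
  tm (sc_any' (sc_base W) (e.symm : Qb →+* AlgebraicClosure F))

theorem T_bk (Q : Pt W Qb) :
    tm (sc_any (sc_base (F := F) W) (e : AlgebraicClosure F →+* Qb)) (bk e Q) = Q := by
  have S'' : Sc (RingHom.id Qb) 1 (W.baseChange Qb) (W.baseChange Qb) := by
    refine ⟨one_ne_zero, ?_, ?_, ?_, ?_, ?_⟩ <;> simp
  unfold bk
  rw [tm_tm _ _ S'' (fun x => e.apply_symm_apply x), tm_id S'' (fun x => rfl) rfl]
  rw [map_one, mul_one]

theorem bk_T (P : Pt (W.baseChange F) (AlgebraicClosure F)) :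
    bk e (tm (sc_any (sc_base (F := F) W) (e : AlgebraicClosure F →+* Qb)) P) = P := by
  apply tm_inj (sc_any (sc_base (F := F) W) (e : AlgebraicClosure F →+* Qb))
  exact T_bk e _

theorem bk_act (σ : Gal F) (Q : Pt W Qb) :
    bk e (act W (cQ e σ).toAlgHom Q) = act (W.baseChange F) σ.toAlgHom (bk e Q) := by
  apply tm_inj (sc_any (sc_base (F := F) W) (e : AlgebraicClosure F →+* Qb))
  rw [T_bk]
  have h := tr_act (sc_base (F := F) W) e (cQ_fx e σ) (bk e Q)
  rw [cF_cQ] at h
  exact (h.trans (congrArg (act W (cQ e σ).toAlgHom) (T_bk e Q))).symm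

theorem isV_bk {x : PSeq W} (hx : IsV p W x) :
    IsV p (W.baseChange F) (fun m => bk e (x m)) := by
  intro m
  obtain ⟨h1, k, hk⟩ := hx m
  refine ⟨?_, k, ?_⟩
  · exact (map_nsmul (bk e) p _).symm.trans (congrArg (bk e) h1)
  · exact (map_nsmul (bk e) (p ^ k) _).symm.trans ((congrArg (bk e) hk).trans (map_zero _))

theorem isV_T {x : PSeq (W.baseChange F)} (hx : IsV p (W.baseChange F) x) :
    IsV p W (fun m => tm (sc_any (sc_base (F := F) W) (e : AlgebraicClosure F →+* Qb)) (x m)) := by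
  intro m
  obtain ⟨h1, k, hk⟩ := hx m
  let T := tm (sc_any (sc_base (F := F) W) (e : AlgebraicClosure F →+* Qb))
  refine ⟨?_, k, ?_⟩
  · exact (map_nsmul T p _).symm.trans (congrArg T h1)
  · exact (map_nsmul T (p ^ k) _).symm.trans ((congrArg T hk).trans (map_zero _))

/-- the local condition is transported -/
theorem loc_bk {K : Type} [Field K] [Algebra F K] [Algebra ℚ K] {c : Gal ℚ → PSeq W}
    (h : LocKum p W K c) :
    LocKum p (W.baseChange F) K (fun σ m => bk e (c (cQ e σ) m)) := by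
  intro ι'
  let ι : Qb →ₐ[ℚ] AlgebraicClosure K :=
    { toRingHom := (ι' : AlgebraicClosure F →+* AlgebraicClosure K).comp
        (e.symm : Qb →+* AlgebraicClosure F)
      commutes' := fun x => DFunLike.congr_fun (Subsingleton.elim
        (((ι' : AlgebraicClosure F →+* AlgebraicClosure K).comp
          (e.symm : Qb →+* AlgebraicClosure F)).comp (algebraMap ℚ Qb))
        (algebraMap ℚ (AlgebraicClosure K))) x }
  obtain ⟨Q, hQ1, hQ2⟩ := h ι
  have S2 : Sc (RingHom.id (AlgebraicClosure K)) 1 (W.baseChange (AlgebraicClosure K))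
    ((W.baseChange F).baseChange (AlgebraicClosure K)) := sc_any' (sc_base W) _
  have S3 : Sc (ι : Qb →+* AlgebraicClosure K) 1 (W.baseChange Qb)
    ((W.baseChange F).baseChange (AlgebraicClosure K)) := sc_any' (sc_base W) _
  have a1 : ∀ P : Pt W Qb, tm S2 (act W ι P) = tm S3 P := fun P =>
    act_tm ι S2 S3 (fun x => rfl) P
  have a2 : ∀ P : Pt W Qb, act (W.baseChange F) ι' (bk e P) = tm S3 P := fun P =>
    tm_act _ ι' S3 (fun x => rfl) (map_one ι').symm P
  refine ⟨fun m => tm S2 (Q m), fun m => (map_nsmul (tm S2) p _).symm.trans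
    (congrArg _ (hQ1 m)), fun τ σ hτ m => ?_⟩
  have h1 := hQ2 τ (cQ e σ) (fun x => by
    show τ (ι' (e.symm x)) = ι' (e.symm (e (σ (e.symm x))))
    rw [e.symm_apply_apply]
    exact hτ _) m
  have S4 : Sc ((τ : AlgebraicClosure K ≃+* AlgebraicClosure K) : AlgebraicClosure K →+*
      AlgebraicClosure K) 1 (W.baseChange (AlgebraicClosure K))
      ((W.baseChange F).baseChange (AlgebraicClosure K)) := sc_any' (sc_base W) _
  have a3 : tm S2 (act W (τ.toAlgHom.restrictScalars ℚ) (Q m)) = tm S4 (Q m) :=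
    act_tm _ S2 S4 (fun x => rfl) _
  have a4 : act (W.baseChange F) (τ.toAlgHom.restrictScalars F) (tm S2 (Q m)) = tm S4 (Q m) :=
    tm_act _ _ S4 (fun x => rfl) (map_one _).symm _
  have h2 := congrArg (tm S2) h1
  exact (a2 _).trans ((a1 _).symm.trans (h2.trans ((map_sub (tm S2) _ _).trans
    (congrArg₂ _ (a3.trans a4.symm) rfl))))

/-- the local condition at a complex place is empty -/
theorem loc_inf {W' : WeierstrassCurve F} {c : Coch2 W'} (hc : IsCocV p W' c)
    {v : InfinitePlace F} (hv : v.IsComplex) : LocKum p W' v.Completion c := by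
  intro ι
  have hcl : IsAlgClosed v.Completion :=
    IsAlgClosed.of_ringEquiv ℂ v.Completion
      (InfinitePlace.Completion.ringEquivComplexOfIsComplex hv).symm
  have hs : Function.Surjective (algebraMap v.Completion (AlgebraicClosure v.Completion)) :=
    IsAlgClosed.algebraMap_bijective_of_isIntegral.2
  refine ⟨fun _ => 0, fun m => smul_zero _, fun τ σ h m => ?_⟩
  have h1 : σ = 1 := by
    refine AlgEquiv.ext fun x => ?_
    obtain ⟨y, hy⟩ := hs (ι x)
    have h2 := h x
    rw [← hy, AlgEquiv.commutes, hy] at h2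
    exact ((ι : AlgebraicClosure F →+* AlgebraicClosure v.Completion).injective h2).symm
  have h2 : c 1 m = 0 := by
    have h3 := hc.2.2 1 1 m
    have h4 : act W' (1 : Gal F).toAlgHom (c 1 m) = c 1 m := by
      rcases c 1 m with _ | ⟨x, y, h⟩
      · rfl
      · rfl
    rw [one_mul, h4] at h3
    exact left_eq_add.1 h3
  rw [h1, h2, map_zero, map_zero, sub_zero]

end tr

/-- an element of `V_p W` fixed by the absolute Galois group of `F` is zero -/
theorem inv_zero (hp : p.Prime) (hfin : Finite (W.baseChange F).toAffine.Point)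
    {x : PSeq W} (hx : IsV p W x)
    (hfix : ∀ σ : Gal ℚ, (∀ y, σ (j y) = j y) → ∀ m, act W σ.toAlgHom (x m) = x m) (m : ℕ) :
    x m = 0 := by
  obtain ⟨e, he⟩ := exists_e j
  have h1 : bk (F := F) e (x m) = 0 := by
    refine Pool.Agent.Q274.XL.h0_zero hp hfin (fun m => bk e (x m)) (isV_bk e hx) ?_ m
    intro σ k
    show act (W.baseChange F) σ.toAlgHom (bk e (x k)) = bk e (x k)
    rw [← bk_act]
    exact congrArg (bk e) (hfix _ (fun y => by
      rw [← he]
      exact cQ_fx e σ y) k)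
  have h2 := T_bk (F := F) e (x m)
  exact h2.symm.trans ((congrArg _ h1).trans (map_zero _))

theorem act_one' (P : Pt W Qb) : act W (1 : Gal ℚ).toAlgHom P = P := by
  rcases P with _ | ⟨x, y, h⟩
  · rfl
  · rfl

/-- **`H⁰` and `H¹_f` of the twisted representation are zero.** -/
theorem tw_zero [IsGalois ℚ F] (hp : p.Prime) (hcx : ∀ v : InfinitePlace F, v.IsComplex)
    (hfin : Finite (W.baseChange F).toAffine.Point) (M : ℕ)
    (hS : ∀ (k : ℕ) (x : Pool.Agent.TH841.NF.D.Sha (W.baseChange F)), (p ^ k : ℕ) • x = 0 →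
      (p ^ M : ℕ) • x = 0) :
    (∀ x : Fin n → PSeq W, (∀ i, IsV p W (x i)) →
      (∀ σ i m, ta W j r σ x i m = x i m) → ∀ i m, x i m = 0) ∧
    ∀ c : Gal ℚ → Fin n → PSeq W, IsTC p W j r c → IsTL F p W c → IsTB p W j r c := by
  refine ⟨fun x hx hfix i m => inv_zero (j := j) hp hfin (hx i) (fun σ hσ k => ?_) m, ?_⟩
  · rw [← ta_fix (r := r) hσ x i k]
    exact hfix σ i k
  intro c hc hL
  obtain ⟨e, he⟩ := exists_e j
  have hFx : ∀ {σ : Gal ℚ}, Fx e σ ↔ ∀ y, σ (j y) = j y := by
    intro σ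
    unfold Fx
    simp only [he]
  -- the restriction of the coordinates
  have hsel : ∀ i, IsSelV p (W.baseChange F) (fun σ m => bk e (c (cQ e σ) i m)) := by
    intro i
    have h1 : IsCocV p (W.baseChange F) (fun σ m => bk e (c (cQ e σ) i m)) := by
      refine ⟨fun m => ((hc.1 i m).comp_continuous (cH_cont e)).comp (bk (F := F) e),
        fun σ => isV_bk e (hc.2.1 _ i), fun σ τ m => ?_⟩
      have h2 := hc.2.2 (cQ e σ) (cQ e τ) i m
      rw [← cQ_mul, ta_fix (hFx.1 (cQ_fx e σ))] at h2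
      have h3 := congrArg (bk (F := F) e) h2
      exact h3.trans ((map_add _ _ _).trans (congrArg₂ _ rfl (bk_act e σ _)))
    exact ⟨h1, fun v => loc_bk e (hL v i), fun v => loc_inf h1 (hcx v)⟩
  have hcob : ∀ i, IsCobV p (W.baseChange F) (fun σ m => bk e (c (cQ e σ) i m)) := by
    intro i
    have h1 := Pool.Agent.Y667.BKP.h1f_zero hp hfin M hS
      (QuotientAddGroup.mk ⟨_, hsel i⟩ : H1f p (W.baseChange F))
    have h2 := (QuotientAddGroup.eq_zero_iff _).1 h1
    rw [AddSubgroup.mem_addSubgroupOf] at h2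
    exact h2
  choose x' hx' hcx' using hcob
  let T := tm (sc_any (sc_base (F := F) W) (e : AlgebraicClosure F →+* Qb))
  let x : Fin n → PSeq W := fun i m => T (x' i m)
  have hx : ∀ i, IsV p W (x i) := fun i => isV_T e (hx' i)
  -- the difference vanishes on the absolute Galois group of `F`
  have hd0 : ∀ σ : Gal ℚ, (∀ y, σ (j y) = j y) → ∀ i m,
      c σ i m = act W σ.toAlgHom (x i m) - x i m := by
    intro σ hσ i m
    have h1 := hcx' i (cF e σ) m
    have h2 : bk (F := F) e (c (cQ e (cF e σ)) i m) =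
      act (W.baseChange F) (cF e σ).toAlgHom (x' i m) - x' i m := h1
    rw [cQ_cF e (hFx.2 hσ)] at h2
    have h3 := (T_bk (F := F) e (c σ i m)).symm.trans ((congrArg T h2).trans (map_sub T _ _))
    exact h3.trans (congrArg₂ _ (tr_act (sc_base (F := F) W) e (hFx.2 hσ) (x' i m)) rfl)
  refine ⟨x, hx, ?_⟩
  let d : Gal ℚ → Fin n → PSeq W := fun σ i m => c σ i m - (ta W j r σ x i m - x i m)
  have hdc : ∀ (σ τ : Gal ℚ) (i : Fin n) (m : ℕ), d (σ * τ) i m = d σ i m + ta W j r σ (d τ) i m := by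
    intro σ τ i m
    have h1 : ta W j r σ (d τ) i m = ta W j r σ (c τ) i m -
        (ta W j r σ (ta W j r τ x) i m - ta W j r σ x i m) := by
      have h2 := ta_sub (W := W) (j := j) (r := r) σ (c τ) (fun i m => ta W j r τ x i m - x i m) i m
      have h3 := ta_sub (W := W) (j := j) (r := r) σ (ta W j r τ x) x i m
      exact h2.trans (congrArg₂ _ rfl h3)
    show c (σ * τ) i m - (ta W j r (σ * τ) x i m - x i m) =
      c σ i m - (ta W j r σ x i m - x i m) + ta W j r σ (d τ) i m
    rw [h1, hc.2.2, ta_mul]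
    abel
  have hdz : ∀ σ : Gal ℚ, (∀ y, σ (j y) = j y) → ∀ i m, d σ i m = 0 := by
    intro σ hσ i m
    show c σ i m - (ta W j r σ x i m - x i m) = 0
    rw [hd0 σ hσ, ta_fix hσ, sub_self]
  have hdV : ∀ (σ : Gal ℚ) (i : Fin n), IsV p W (d σ i) := by
    intro σ i
    have h1 : IsV p W (ta W j r σ x i) := by
      intro m
      refine ⟨?_, ?_⟩
      · show p • ta W j r σ x i (m + 1) = ta W j r σ x i m
        unfold ta
        rw [Finset.smul_sum]
        refine Finset.sum_congr rfl fun k _ => ?_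
        rw [smul_comm]
        exact congrArg _ ((map_nsmul (act W σ.toAlgHom) p _).symm.trans
          (congrArg (act W σ.toAlgHom) (hx k m).1))
      · choose a ha using fun k => (hx k m).2
        refine ⟨∑ k, a k, ?_⟩
        show (p ^ (∑ k, a k) : ℕ) • ta W j r σ x i m = 0
        unfold ta
        rw [Finset.smul_sum]
        refine Finset.sum_eq_zero fun k _ => ?_
        rw [smul_comm]
        have h2 : (p ^ (∑ k, a k) : ℕ) • act W σ.toAlgHom (x k m) = 0 := by
          rw [← Finset.sum_erase_add _ _ (Finset.mem_univ k), pow_add, mul_smul]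
          have h3 : (p ^ a k : ℕ) • act W σ.toAlgHom (x k m) = 0 :=
            (map_nsmul (act W σ.toAlgHom) (p ^ a k) _).symm.trans
              ((congrArg (act W σ.toAlgHom) (ha k)).trans (map_zero _))
          rw [h3, smul_zero]
        rw [h2, smul_zero]
    have h2 := Pool.Agent.Y667.BKP.isV_add h1 (Pool.Agent.Y667.BKP.isV_neg (hx i))
    have h3 := Pool.Agent.Y667.BKP.isV_add (hc.2.1 σ i) (Pool.Agent.Y667.BKP.isV_neg h2)
    intro m
    obtain ⟨a, b, hb⟩ := h3 m
    have e1 : ∀ m, d σ i m = (c σ i + -(ta W j r σ x i + -(x i)) : PSeq W) m := by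
      intro m
      show c σ i m - (ta W j r σ x i m - x i m) = c σ i m + -(ta W j r σ x i m + -(x i m))
      rw [sub_eq_add_neg, sub_eq_add_neg]
    refine ⟨?_, b, ?_⟩
    · rw [e1, e1]
      exact a
    · rw [e1]
      exact hb
  intro σ i m
  have h0 : d σ i m = 0 := by
    refine inv_zero (F := F) (j := j) hp hfin (hdV σ i) (fun h hh k => ?_) m
    have h1 : d (h * σ) i k = act W h.toAlgHom (d σ i k) := by
      rw [hdc, hdz h hh, zero_add, ta_fix hh]
    have h2 : ∀ y, (σ⁻¹ * h * σ) (j y) = j y := by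
      intro y
      have h3 : (h * σ) (j y) = σ (j y) := by
        show h (σ (j y)) = σ (j y)
        rw [← res_spec j σ y]
        exact hh _
      show σ⁻¹ ((h * σ) (j y)) = j y
      rw [h3]
      exact σ.symm_apply_apply _
    have h4 : d (σ * (σ⁻¹ * h * σ)) i k = d σ i k := by
      rw [hdc]
      have h5 : ta W j r σ (d (σ⁻¹ * h * σ)) i k = 0 := by
        unfold ta
        refine Finset.sum_eq_zero fun l _ => ?_
        rw [hdz _ h2, map_zero, smul_zero]
      rw [h5, add_zero]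
    have h6 : σ * (σ⁻¹ * h * σ) = h * σ := by group
    rw [h6] at h4
    rw [← h1, h4]
  exact sub_eq_zero.1 h0

end tw

end Q155.BK
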